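import Mathlib

/-!
# Project DN: a rational basis of `(V ⊗ F)^Gal(F/K)` (Galois descent)
-/

set_option autoImplicit false

namespace Pool.Agent.L7h81.DN

open Module

variable {K F : Type} [Field K] [NumberField K] [Field F] [NumberField F] [Algebra K F]

lemma sm_eq {k : ℕ} (q : ℚ) (t : K) (v : Fin k → F) :
    algebraMap K F (q • t) • v = q • (algebraMap K F t • v) := by
  rw [Rat.smul_def, map_mul, map_ratCast, mul_smul, Rat.cast_smul_eq_qsmul]

/-- the automorphisms are independent -/
lemma aut_indep (a : (F ≃ₐ[K] F) → F) (h : ∀ x : F, ∑ g : F ≃ₐ[K] F, a g * g x = 0) : a = 0 := by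
  classical
  have h1 := (linearIndependent_monoidHom F F).comp (fun g : F ≃ₐ[K] F => (g : F →* F)) (by
    intro g g' hg
    ext x
    exact DFunLike.congr_fun hg x)
  rw [Fintype.linearIndependent_iff] at h1
  funext g
  refine h1 a ?_ g
  funext x
  simpa [Finset.sum_apply] using h x

/-- the invariants span -/
lemma span_inv {k : ℕ} (ρ : (F ≃ₐ[K] F) →* Matrix (Fin k) (Fin k) ℚ) :
    Submodule.span F {x : Fin k → F | ∀ (g : F ≃ₐ[K] F) (i : Fin k), ∑ j, (ρ g i j : F) * g (x j) = x i} = ⊤ := by
  classical
  by_contra hne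
  obtain ⟨f, hf0, hf⟩ := Submodule.exists_le_ker_of_lt_top _ (lt_top_iff_ne_top.2 hne)
  apply hf0
  refine LinearMap.ext fun x => ?_
  -- the trace of `l x`
  have h1 : ∀ l : F, ∑ g : F ≃ₐ[K] F, f (fun i => ∑ j, (ρ g i j : F) * g (x j)) * g l = 0 := by
    intro l
    have h2 : (fun i => ∑ g : F ≃ₐ[K] F, ∑ j, (ρ g i j : F) * g (l * x j)) ∈
        {x : Fin k → F | ∀ (g : F ≃ₐ[K] F) (i : Fin k), ∑ j, (ρ g i j : F) * g (x j) = x i} := by
      intro h i
      have h3 : ∀ g : F ≃ₐ[K] F, ∑ i', (ρ h i i' : F) * h (∑ j, (ρ g i' j : F) * g (l * x j)) =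
          ∑ j, (ρ (h * g) i j : F) * (h * g) (l * x j) := by
        intro g
        have e1 : ∀ i', (ρ h i i' : F) * h (∑ j, (ρ g i' j : F) * g (l * x j)) =
            ∑ j, ((ρ h i i' * ρ g i' j : ℚ) : F) * (h * g) (l * x j) := by
          intro i'
          rw [map_sum, Finset.mul_sum]
          refine Finset.sum_congr rfl fun j _ => ?_
          rw [map_mul, map_ratCast]
          push_cast
          rw [mul_assoc]
          rfl
        simp only [e1]
        rw [Finset.sum_comm]
        refine Finset.sum_congr rfl fun j _ => ?_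
        have e4 : ρ (h * g) i j = ∑ i', ρ h i i' * ρ g i' j := by
          rw [map_mul ρ, Matrix.mul_apply]
        rw [← Finset.sum_mul, e4]
        push_cast
        rfl
      calc ∑ j, (ρ h i j : F) * h (∑ g : F ≃ₐ[K] F, ∑ j', (ρ g j j' : F) * g (l * x j'))
          = ∑ g : F ≃ₐ[K] F, ∑ i', (ρ h i i' : F) * h (∑ j, (ρ g i' j : F) * g (l * x j)) := by
            rw [Finset.sum_comm]
            refine Finset.sum_congr rfl fun j _ => ?_
            rw [map_sum, Finset.mul_sum]
        _ = ∑ g : F ≃ₐ[K] F, ∑ j, (ρ (h * g) i j : F) * (h * g) (l * x j) :=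
            Finset.sum_congr rfl fun g _ => h3 g
        _ = ∑ g : F ≃ₐ[K] F, ∑ j, (ρ g i j : F) * g (l * x j) :=
            Fintype.sum_bijective (fun g => h * g) (Group.mulLeft_bijective h) _ _ fun g => rfl
    have h4 := hf (Submodule.subset_span h2)
    rw [LinearMap.mem_ker] at h4
    rw [← h4]
    have e2 : (fun i => ∑ g : F ≃ₐ[K] F, ∑ j, (ρ g i j : F) * g (l * x j)) =
        ∑ g : F ≃ₐ[K] F, g l • (fun i => ∑ j, (ρ g i j : F) * g (x j)) := by
      funext i
      rw [Finset.sum_apply]
      refine Finset.sum_congr rfl fun g _ => ?_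
      rw [Pi.smul_apply, smul_eq_mul, Finset.mul_sum]
      refine Finset.sum_congr rfl fun j _ => ?_
      rw [map_mul]
      ring
    rw [e2, map_sum]
    refine Finset.sum_congr rfl fun g _ => ?_
    rw [map_smul, smul_eq_mul, mul_comm]
  have h5 := congrFun (aut_indep _ h1) 1
  have e3 : (fun i => ∑ j, (ρ 1 i j : F) * (1 : F ≃ₐ[K] F) (x j)) = x := by
    funext i
    rw [map_one]
    simp only [AlgEquiv.one_apply]
    rw [Finset.sum_eq_single i]
    · simp
    · intro j _ hj
      rw [Matrix.one_apply_ne hj.symm]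
      simp
    · intro h
      exact absurd (Finset.mem_univ i) h
  simp only [e3] at h5
  simpa using h5

/-- **a rational basis of the invariants** -/
theorem exists_rat [IsGalois K F] (hK : finrank ℚ K = 2) {k : ℕ} (ρ : (F ≃ₐ[K] F) →* Matrix (Fin k) (Fin k) ℚ) :
    ∃ B : Fin k × Fin 2 → Fin k → F, (∀ l (g : F ≃ₐ[K] F) (i : Fin k), ∑ j, (ρ g i j : F) * g (B l j) = B l i) ∧
      LinearIndependent ℚ B ∧ ∀ x : Fin k → F, (∀ (g : F ≃ₐ[K] F) (i : Fin k), ∑ j, (ρ g i j : F) * g (x j) = x i) →
        x ∈ Submodule.span ℚ (Set.range B) := by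
  classical
  set W : Set (Fin k → F) := {x | ∀ (g : F ≃ₐ[K] F) (i : Fin k), ∑ j, (ρ g i j : F) * g (x j) = x i} with hW
  have hs : ⊤ ≤ Submodule.span F W := (span_inv ρ).ge
  let b0 := Basis.ofSpan hs
  have hfin : Fintype ((linearIndepOn_empty F id).extend (Set.empty_subset W)) := FiniteDimensional.fintypeBasisIndex b0
  have hcard : Fintype.card ((linearIndepOn_empty F id).extend (Set.empty_subset W)) = k := by
    rw [← finrank_eq_card_basis b0, finrank_fin_fun]
  let w : Basis (Fin k) F (Fin k → F) := b0.reindex (Fintype.equivFinOfCardEq hcard)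
  have hw : ∀ p, w p ∈ W := by
    intro p
    rw [Basis.reindex_apply]
    exact Basis.ofSpan_subset hs ⟨_, rfl⟩
  let θ : Basis (Fin 2) ℚ K := finBasisOfFinrankEq ℚ K hK
  refine ⟨fun l => algebraMap K F (θ l.2) • w l.1, ?_, ?_, ?_⟩
  · intro l g i
    have h1 := hw l.1 g i
    calc ∑ j, (ρ g i j : F) * g ((algebraMap K F (θ l.2) • w l.1) j)
        = ∑ j, algebraMap K F (θ l.2) * ((ρ g i j : F) * g (w l.1 j)) := by
          refine Finset.sum_congr rfl fun j _ => ?_
          rw [Pi.smul_apply, smul_eq_mul, map_mul, g.commutes]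
          ring
      _ = algebraMap K F (θ l.2) * w l.1 i := by
          rw [← Finset.mul_sum, h1]
      _ = (algebraMap K F (θ l.2) • w l.1) i := rfl
  · rw [Fintype.linearIndependent_iff]
    intro g hg
    have h1 : ∑ p, (algebraMap K F (∑ i, g (p, i) • θ i)) • w p = 0 := by
      rw [← hg, Fintype.sum_prod_type]
      refine Finset.sum_congr rfl fun p _ => ?_
      rw [map_sum, Finset.sum_smul]
      refine Finset.sum_congr rfl fun i _ => ?_
      exact sm_eq _ _ _
    have h2 := Fintype.linearIndependent_iff.1 w.linearIndependent _ h1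
    rintro ⟨p, i⟩
    have h3 := h2 p
    rw [map_eq_zero_iff _ (algebraMap K F).injective] at h3
    exact Fintype.linearIndependent_iff.1 θ.linearIndependent _ h3 i
  · intro x hx
    -- the coordinates are in `K`
    have h1 : ∀ p, ∃ y : K, algebraMap K F y = w.repr x p := by
      intro p
      have h2 : w.repr x p ∈ Set.range (algebraMap K F) := by
        rw [IsGalois.mem_range_algebraMap_iff_fixed]
        intro g
        have h3 : ∑ p, g (w.repr x p) • w p = x := by
          funext i
          rw [← hx g i, Finset.sum_apply]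
          have e1 : ∀ j, x j = ∑ p, w.repr x p * w p j := by
            intro j
            have := congrFun (w.sum_repr x) j
            rw [Finset.sum_apply] at this
            exact this.symm
          calc ∑ p, (g (w.repr x p) • w p) i
              = ∑ p, g (w.repr x p) * ∑ j, (ρ g i j : F) * g (w p j) := by
                refine Finset.sum_congr rfl fun p _ => ?_
                rw [hw p g i]
                rfl
            _ = ∑ j, (ρ g i j : F) * g (x j) := by
                simp only [Finset.mul_sum]
                rw [Finset.sum_comm]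
                refine Finset.sum_congr rfl fun j _ => ?_
                rw [e1 j, map_sum, Finset.mul_sum]
                refine Finset.sum_congr rfl fun p _ => ?_
                rw [map_mul]
                ring
        have h4 : w.repr (∑ p, g (w.repr x p) • w p) p = g (w.repr x p) := by
          rw [w.repr_sum_self]
        rw [h3] at h4
        exact h4.symm
      exact h2
    choose y hy using h1
    have h5 : x = ∑ p, ∑ i, (θ.repr (y p) i) • ((algebraMap K F (θ i)) • w p) := by
      conv_lhs => rw [← w.sum_repr x]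
      refine Finset.sum_congr rfl fun p _ => ?_
      rw [← hy p]
      conv_lhs => rw [← θ.sum_repr (y p)]
      rw [map_sum, Finset.sum_smul]
      refine Finset.sum_congr rfl fun i _ => ?_
      exact sm_eq _ _ _
    rw [h5]
    exact Submodule.sum_mem _ fun p _ => Submodule.sum_mem _ fun i _ =>
      Submodule.smul_mem _ _ (Submodule.subset_span ⟨(p, i), rfl⟩)

end Pool.Agent.L7h81.DN
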