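import Pool.Agent.L7h81.UR.Fin
import Pool.Agent.L7h82.RL.Dl
import Pool.Agent.L7h60.RL.Eul
import Pool.Agent.L7h65.RL2.Exc

/-!
# Project DN: nonvanishing for all rational representations of the Galois groups of the class fields of a tuple
-/

set_option autoImplicit false
set_option linter.unusedSectionVars false
set_option linter.unusedVariables false

namespace Pool.Agent.L7h81.DN

open NumberField NumberField.InfinitePlace IsDedekindDomain Filter Topology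
open Pool.Agent.W189.NF (aV eV)
open Pool.Agent.K4H55.BI (IQ BF gen gen_span fv ordK)
open Pool.Agent.K4H55.BK (Vals)
open Pool.Agent.K4H55.CX (efx)
open Pool.Agent.L7h15.BK (cv npt)
open Pool.Agent.L7h15.OA (exists_lam int_lam ch_dvd)
open Pool.Agent.L7h81.UB
open Pool.Agent.L7h81.UR (cf cf_le pk_of norm_cf HR okR fv_ne' inv_pr)
open Pool.Agent.L7h82.RL (PK RC CentralValue fm IsB MB MD CDF fin2 factor_eq FS)
open scoped ComplexConjugate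

variable {K : Type} [Field K] [NumberField K] [hP : IsPrincipalIdealRing (𝓞 K)] {σ : K →+* ℂ}
  {δ : K} {n : 𝓞 K} {c : Ideal (𝓞 K) → ℂ}

/-- the law of reciprocity for the fields of a tuple, and the formulas for conductors and discriminants -/
structure Rcp (F : Type) [Field F] [NumberField F] [Algebra K F] {r : ℕ} (c : Fin r → FamK K)
    (E : ((F ≃ₐ[K] F) →* ℂˣ) → FamK K) : Prop where
  gens : ∀ ψ, ∃ J : Fin r → ℕ, E ψ = ∏ j, c j ^ J j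
  ram : ∀ ψ, ∀ v : HeightOneSpectrum (𝓞 K), E ψ v ≠ 1 → ∀ u : HeightOneSpectrum (𝓞 F),
      u.asIdeal.comap (algebraMap (𝓞 K) (𝓞 F)) = v.asIdeal →
      ∃ t : F ≃ₐ[K] F, (∀ x : 𝓞 F, t • x - x ∈ u.asIdeal) ∧ ψ t ≠ 1
  frob : ∀ ψ, ∀ v : HeightOneSpectrum (𝓞 K), E ψ v = 1 → ∀ u : HeightOneSpectrum (𝓞 F),
      u.asIdeal.comap (algebraMap (𝓞 K) (𝓞 F)) = v.asIdeal →
      ∀ t : F ≃ₐ[K] F, (∀ x : 𝓞 F, t • x - x ^ Ideal.absNorm v.asIdeal ∈ u.asIdeal) →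
        (ψ t : ℂ) = va (E ψ) (gen v)
  disc : ∀ L : IntermediateField K F, |(discr L : ℝ)| = |(discr K : ℝ)| ^ Module.finrank K L *
    ∏ᶠ ψ : {ψ : (F ≃ₐ[K] F) →* ℂˣ // ∀ g ∈ L.fixingSubgroup, ψ g = 1}, (NC (E ψ.1) : ℝ)

open Classical in
/-- **one field** -/
theorem one_D (h : IQ K σ δ) (hf : BF σ δ n c)
    {l k : ℕ} (hl : l.Prime) {a b : 𝓞 K}
    (hloc : ∀ v : HeightOneSpectrum (𝓞 K), c v.asIdeal = (aV (cv (a : K) (b : K)) v : ℂ) ∧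
      (eV (cv (a : K) (b : K)) v : ℂ) = if n ∈ v.asIdeal then 0 else (Ideal.absNorm v.asIdeal : ℂ))
    {r : ℕ} {e : Fin r → FamK K} (H1 : Subgroup (FamK K))
    (he : ∀ j, e j ∈ H1) (hpow : ∀ x ∈ H1, x ^ (l ^ k) = 1) (hfin : ∀ x ∈ H1, {v | x v ≠ 1}.Finite)
    (hunit : ∀ x ∈ H1, ∀ u : 𝓞 K, IsUnit u → va x u = 1)
    (hadm : ∀ x ∈ H1, ∀ v : HeightOneSpectrum (𝓞 K), x v ≠ 1 →
      2 * (4 * a ^ 3 + 27 * b ^ 2) ∉ v.asIdeal)
    (hnv : ∀ J : Fin r → ℕ, btK (ordK h) (fv (ordK h) (fun x => c (Ideal.span {x})))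
      (∏ j, e j ^ J j) ≠ 0)
    {F : Type} [Field F] [NumberField F] [Algebra K F] [IsGalois K F]
    {E : ((F ≃ₐ[K] F) →* ℂˣ) → FamK K} (hE : Rcp F e E) :
    (∀ ψ, RC ψ (cf (sp (E ψ))) (vl (E ψ) (sp (E ψ)))) ∧
    (∀ ψ, ∀ v : HeightOneSpectrum (𝓞 K), cf (sp (E ψ)) ≤ v.asIdeal → n ∉ v.asIdeal) ∧
    ∃ G : ((F ≃ₐ[K] F) →* ℂˣ) → ℂ → ℂ, (∀ ψ, Differentiable ℂ (G ψ)) ∧
      (∀ ψ, ∀ s : ℂ, 2 < s.re → HasProd (efx n c (vl (E ψ) (sp (E ψ))) s) (G ψ s)) ∧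
      ∀ ψ, G ψ 1 ≠ 0 := by
  classical
  choose J hJ using hE.gens
  have hEH : ∀ ψ, E ψ ∈ H1 := fun ψ => by
    rw [hJ]
    exact prod_pow_mem (G := FamK K) H1 e he (J ψ)
  have hmem : ∀ ψ v, v ∈ sp (E ψ) ↔ E ψ v ≠ 1 := fun ψ v => mem_sp (hfin _ (hEH ψ)) v
  have hR : ∀ ψ, RC ψ (cf (sp (E ψ))) (vl (E ψ) (sp (E ψ))) := fun ψ =>
    ⟨pk_of (chl_of (hpow _ (hEH ψ)) (hfin _ (hEH ψ)) (hunit _ (hEH ψ))),
      fun v hv u hu => hE.ram ψ v ((hmem ψ v).1 ((cf_le _ v).1 hv)) u hu,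
      fun v hv u hu t ht => hE.frob ψ v (by
        by_contra hne
        exact hv ((cf_le _ v).2 ((hmem ψ v).2 hne))) u hu t ht⟩
  have hG2 : ∀ ψ, Gd2 n (sp (E ψ)) := fun ψ v hv => by
    have h3 := hadm _ (hEH ψ) v ((hmem ψ v).1 hv)
    exact ⟨fun h4 => h3 (v.asIdeal.mul_mem_right _ h4), (loc_lev hloc v h3).1⟩
  have hinv : ∀ ψ, (E ψ)⁻¹ = ∏ j, e j ^ (J ψ j * (l ^ k - 1)) := fun ψ => by
    rw [hJ]
    exact inv_pr (G := FamK K) (pow_pos hl.pos k) e (J ψ) (by rw [← hJ]; exact hpow _ (hEH ψ))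
  choose G g1 g2 g3 using fun ψ => nonv h hf hl (hpow _ (hEH ψ)) (hfin _ (hEH ψ))
    (hunit _ (hEH ψ)) (hG2 ψ) (by rw [hinv]; exact hnv _)
  exact ⟨hR, fun ψ v hv => (hG2 ψ v ((cf_le _ v).1 hv)).2, G, g1, g2, g3⟩

open Classical in
/-- the conclusion of `fin2` for one field -/
def F2 (σ : K →+* ℂ) (a b : K) (n : 𝓞 K) (c : Ideal (𝓞 K) → ℂ) (τ : ℝ) (P : ℂ → Prop) (F : Type) [Field F]
    [NumberField F] [Algebra K F] (k : ℕ) (ρ : (F ≃ₐ[K] F) →* Matrix (Fin k) (Fin k) ℚ) : Prop :=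
  ∃ Λ : ℂ → ℂ, Differentiable ℂ Λ ∧ P (Λ 1) ∧
    (∀ (p : HeightOneSpectrum (𝓞 K) → Polynomial ℂ), (∀ v, p v = 1 - Polynomial.C (c v.asIdeal) * Polynomial.X +
      Polynomial.C (if n ∈ v.asIdeal then 0 else (Ideal.absNorm v.asIdeal : ℂ)) * Polynomial.X ^ 2) →
      ∀ u : HeightOneSpectrum (𝓞 K) → HeightOneSpectrum (𝓞 F),
      (∀ v, (u v).asIdeal.comap (algebraMap (𝓞 K) (𝓞 F)) = v.asIdeal) → ∀ s : ℂ, 2 < s.re →
      HasProd (fun v => ((Polynomial.aeval ((Ideal.absNorm v.asIdeal : ℂ) ^ (-s) • fm ρ v (u v)) (p v)).det)⁻¹)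
        (Λ s)) ∧
    ∀ (ν : F →+* ℂ), (∀ x : K, ν (algebraMap K F x) = σ x) → ∀ (L : PeriodPair), L.g₂ = -4 * σ a →
      L.g₃ = -4 * σ b → ∀ (B : Fin k × Fin 2 → Fin k → F), IsB ρ B →
      ∃ q : ℚ, Λ 1 = (q : ℂ) * ((MB k ![L.ω₁, L.ω₂]).det / (MD ν B).det * (τ : ℂ) ^ k)

open Classical in
/-- `fin2`, for all fields -/
def FinD (σ : K →+* ℂ) (a b : K) (n : 𝓞 K) (c : Ideal (𝓞 K) → ℂ) (τ : ℝ) : Prop :=
  ∀ (F : Type) [Field F] [NumberField F] [Algebra K F] [IsGalois K F],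
      (∀ s t : F ≃ₐ[K] F, s * t = t * s) →
      ∀ (𝔣 : ((F ≃ₐ[K] F) →* ℂˣ) → Ideal (𝓞 K)) (χ : ((F ≃ₐ[K] F) →* ℂˣ) → 𝓞 K → ℂ),
      (∀ ψ, RC ψ (𝔣 ψ) (χ ψ)) →
      (∀ ψ, ∀ v : HeightOneSpectrum (𝓞 K), 𝔣 ψ ≤ v.asIdeal → n ∉ v.asIdeal) → CDF K F 𝔣 →
      ∀ (k : ℕ) (ρ : (F ≃ₐ[K] F) →* Matrix (Fin k) (Fin k) ℚ), F2 σ a b n c τ (fun _ => True) F k ρ

open Classical in
theorem exists_tau (h : IQ K σ δ) (hf : BF σ δ n c) {a b : K}
    (hint : ∀ v : HeightOneSpectrum (𝓞 K), ∃ m : ℤ, c v.asIdeal = m)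
    {ω : ℂ} (hω' : ω ∈ AddSubgroup.closure (Vals σ δ n c))
    (hω : ∀ l ∈ AddSubgroup.closure (Vals σ δ n c), ∃ j : ℤ, l = j * ω) :
    ∃ τ : ℝ, 0 < τ ∧ FinD σ a b n c τ := by
  obtain ⟨τ, hτ, H⟩ := fin2 L7h60.RL.s_EUL L7h65.RL2.s_EXC h hf (a := a) (b := b) hint hω' hω
  refine ⟨τ, hτ, fun F _ _ _ _ hab 𝔣 χ hR hn hC k ρ => ?_⟩
  obtain ⟨Λ, h1, h2, h3⟩ := H F hab 𝔣 χ hR hn hC k ρ
  exact ⟨Λ, h1, trivial, h2, h3⟩

open Classical in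
/-- **the conclusion for a tuple, all rational representations** -/
theorem concl_D (h : IQ K σ δ) (hf : BF σ δ n c)
    {l k : ℕ} (hl : l.Prime) {a b : 𝓞 K}
    (hloc : ∀ v : HeightOneSpectrum (𝓞 K), c v.asIdeal = (aV (cv (a : K) (b : K)) v : ℂ) ∧
      (eV (cv (a : K) (b : K)) v : ℂ) = if n ∈ v.asIdeal then 0 else (Ideal.absNorm v.asIdeal : ℂ))
    {τ : ℝ} (hτ : FinD σ (a : K) (b : K) n c τ)
    {r : ℕ} {e : Fin r → FamK K} (H1 : Subgroup (FamK K))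
    (he : ∀ j, e j ∈ H1) (hpow : ∀ x ∈ H1, x ^ (l ^ k) = 1) (hfin : ∀ x ∈ H1, {v | x v ≠ 1}.Finite)
    (hunit : ∀ x ∈ H1, ∀ u : 𝓞 K, IsUnit u → va x u = 1)
    (hadm : ∀ x ∈ H1, ∀ v : HeightOneSpectrum (𝓞 K), x v ≠ 1 →
      2 * (4 * a ^ 3 + 27 * b ^ 2) ∉ v.asIdeal)
    (hnv : ∀ J : Fin r → ℕ, btK (ordK h) (fv (ordK h) (fun x => c (Ideal.span {x})))
      (∏ j, e j ^ J j) ≠ 0)
    {F : Type} [Field F] [NumberField F] [Algebra K F] [IsGalois K F]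
    (hab : ∀ s t : F ≃ₐ[K] F, s * t = t * s) {E : ((F ≃ₐ[K] F) →* ℂˣ) → FamK K} (hE : Rcp F e E)
    (d : ℕ) (ρ : (F ≃ₐ[K] F) →* Matrix (Fin d) (Fin d) ℚ) :
    F2 σ (a : K) (b : K) n c τ (fun x => x ≠ 0) F d ρ := by
  classical
  obtain ⟨hR, hn, G, g1, g2, g3⟩ := one_D h hf hl hloc H1 he hpow hfin hunit hadm hnv hE
  have hC : CDF K F (fun ψ => cf (sp (E ψ))) := by
    intro L
    rw [hE.disc L]
    congr 1
    exact finprod_congr fun ψ => by rw [norm_cf]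
  obtain ⟨Λ, k1, -, k2, k3⟩ := hτ F hab _ _ hR hn hC d ρ
  refine ⟨Λ, k1, ?_, k2, k3⟩
  obtain ⟨P, ψ, hPu, hP, -⟩ : ∃ (P : Matrix (Fin d) (Fin d) ℂ) (ψ : Fin d → ((F ≃ₐ[K] F) →* ℂˣ)), IsUnit P ∧
    (∀ g, (ρ g).map (algebraMap ℚ ℂ) * P = P * Matrix.diagonal fun i => ((ψ i g : ℂˣ) : ℂ)) ∧
    ∀ g, ((ρ g).map (algebraMap ℚ ℂ)).charpoly = ∏ i, (Polynomial.X - Polynomial.C ((ψ i g : ℂˣ) : ℂ)) := by
    let _ : CommGroup (F ≃ₐ[K] F) := { (inferInstance : Group (F ≃ₐ[K] F)) with mul_comm := hab }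
    exact L7h65.RL2.s_EXC (F ≃ₐ[K] F) d ρ
  choose u hu using fun v : HeightOneSpectrum (𝓞 K) => L7h23.RL.exists_above (F := F) v
  have e1 : Λ = fun s => ∏ i, G (ψ i) s := by
    have d1 : Differentiable ℂ (fun s => ∏ i, G (ψ i) s) := by
      have : Differentiable ℂ (fun s => ∏ i ∈ (Finset.univ : Finset (Fin d)), G (ψ i) s) :=
        Differentiable.fun_finsetProd fun i _ => g1 (ψ i)
      exact this
    refine AnalyticOnNhd.eq_of_eventuallyEq (z₀ := (3 : ℂ)) (fun s _ => k1.analyticAt s) (fun s _ => d1.analyticAt s) ?_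
    have h5 : {s : ℂ | (2 : ℝ) < s.re} ∈ 𝓝 (3 : ℂ) :=
      (isOpen_lt continuous_const Complex.continuous_re).mem_nhds (by
        show (2 : ℝ) < (3 : ℂ).re
        norm_num)
    filter_upwards [h5] with s hs
    have e2 := k2 _ (fun v => rfl) u hu s hs
    refine e2.unique ?_
    have e3 : (fun v => ((Polynomial.aeval ((Ideal.absNorm v.asIdeal : ℂ) ^ (-s) • fm ρ v (u v))
        (1 - Polynomial.C (c v.asIdeal) * Polynomial.X +
      Polynomial.C (if n ∈ v.asIdeal then 0 else (Ideal.absNorm v.asIdeal : ℂ)) * Polynomial.X ^ 2)).det)⁻¹) =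
        fun v => ∏ i, efx n c (vl (E (ψ i)) (sp (E (ψ i)))) s v :=
      funext fun v => factor_eq L7h60.RL.s_EUL hPu hP hR (hu v) rfl s
    rw [e3]
    exact hasProd_prod fun i _ => g2 (ψ i) s hs
  rw [e1]
  exact Finset.prod_ne_zero_iff.2 fun i _ => g3 (ψ i)

open Classical in
/-- the value at the cusp `0` is not zero -/
theorem fv_ne2 (h : IQ K σ δ) (hf : BF σ δ n c) {a b : K} {τ : ℝ}
    (hK : F2 σ a b n c τ (fun x => x ≠ 0) K 1 1) :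
    fv (ordK h) (fun x => c (Ideal.span {x})) 0 ≠ 0 := by
  classical
  obtain ⟨Λ, k1, kne, k2, -⟩ := hK
  have he : (1 : FamK K) ^ 3 ^ 0 = 1 := one_pow (M := FamK K) _
  have hfin : {v | (1 : FamK K) v ≠ 1}.Finite := by
    have : {v | (1 : FamK K) v ≠ 1} = ∅ := by
      ext v
      simp
    rw [this]
    exact Set.finite_empty
  have hu1 : ∀ u : 𝓞 K, IsUnit u → vl (1 : FamK K) (sp (1 : FamK K)) u = 1 := fun u _ => by
    rw [sp_one]; unfold vl; simp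
  obtain ⟨G, g1, g2, g3⟩ := val_iff h hf Nat.prime_three (k := 0) he hfin hu1
    (by rw [sp_one]; intro v hv; exact absurd hv (Finset.notMem_empty v))
  have e0 : (1 : FamK K)⁻¹ = 1 := _root_.inv_one (G := FamK K)
  rw [e0, btK_one] at g3
  apply g3.1
  have hK1 : ∀ t : K ≃ₐ[K] K, t = 1 := fun t => AlgEquiv.ext fun x => t.commutes x
  have hR : ∀ ψ : (K ≃ₐ[K] K) →* ℂˣ, RC ψ (cf (sp (1 : FamK K))) (vl (1 : FamK K) (sp (1 : FamK K))) := fun ψ =>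
    ⟨pk_of (chl_of he hfin hu1), fun v hv u hu => by
      have := (cf_le _ v).1 hv
      rw [sp_one] at this
      exact absurd this (Finset.notMem_empty v), fun v hv u hu t ht => by
        rw [hK1 t, map_one, sp_one]
        unfold vl
        simp⟩
  choose u hu using fun v : HeightOneSpectrum (𝓞 K) => L7h23.RL.exists_above (F := K) v
  have e1 : Λ = G := by
    refine AnalyticOnNhd.eq_of_eventuallyEq (z₀ := (3 : ℂ)) (fun s _ => k1.analyticAt s) (fun s _ => g1.analyticAt s) ?_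
    have h5 : {s : ℂ | (2 : ℝ) < s.re} ∈ 𝓝 (3 : ℂ) :=
      (isOpen_lt continuous_const Complex.continuous_re).mem_nhds (by
        show (2 : ℝ) < (3 : ℂ).re
        norm_num)
    filter_upwards [h5] with s hs
    have e2 := k2 _ (fun v => rfl) u hu s hs
    refine e2.unique ?_
    have hP : ∀ g : K ≃ₐ[K] K, ((1 : (K ≃ₐ[K] K) →* Matrix (Fin 1) (Fin 1) ℚ) g).map (algebraMap ℚ ℂ) *
        (1 : Matrix (Fin 1) (Fin 1) ℂ) =
        (1 : Matrix (Fin 1) (Fin 1) ℂ) * Matrix.diagonal fun i : Fin 1 =>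
          (((fun _ : Fin 1 => (1 : (K ≃ₐ[K] K) →* ℂˣ)) i g : ℂˣ) : ℂ) := by
      intro g
      ext i j
      fin_cases i
      fin_cases j
      simp
    have e3 : (fun v => ((Polynomial.aeval ((Ideal.absNorm v.asIdeal : ℂ) ^ (-s) •
        fm (1 : (K ≃ₐ[K] K) →* Matrix (Fin 1) (Fin 1) ℚ) v (u v))
        (1 - Polynomial.C (c v.asIdeal) * Polynomial.X +
      Polynomial.C (if n ∈ v.asIdeal then 0 else (Ideal.absNorm v.asIdeal : ℂ)) * Polynomial.X ^ 2)).det)⁻¹) =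
        efx n c (vl (1 : FamK K) (sp (1 : FamK K))) s := by
      funext v
      rw [factor_eq L7h60.RL.s_EUL isUnit_one hP hR (hu v) rfl s]
      simp
    rw [e3]
    exact g2 s hs
  rw [← e1]
  exact kne

section main

open Classical in
/-- **Uniform proportions.** -/
theorem uniD (h : IQ K σ δ) {m : ℕ} (a b n : Fin m → 𝓞 K)
    (c : Fin m → Ideal (𝓞 K) → ℂ)
    (hf : ∀ i, BF σ δ (n i) (c i))
    (hloc : ∀ i, ∀ v : HeightOneSpectrum (𝓞 K),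
      c i v.asIdeal = (aV (cv (a i : K) (b i : K)) v : ℂ) ∧
      (eV (cv (a i : K) (b i : K)) v : ℂ) =
        if n i ∈ v.asIdeal then 0 else (Ideal.absNorm v.asIdeal : ℂ))
    {τ : Fin m → ℝ} (hτ : ∀ i, FinD σ (a i : K) (b i : K) (n i) (c i) (τ i))
    (hfv : ∀ i, fv (ordK h) (fun x => c i (Ideal.span {x})) 0 ≠ 0)
    {l : ℕ} (hl : l.Prime) (k r : ℕ) :
    ∃ V : ℕ, ∀ H : Subgroup (FamK K), HR l k a b H →
      ∃ KK : Finset (Fin r → FamK K), KK.card ≤ 2 ^ V ∧ (∀ x ∈ KK, ∀ j, x j ∈ H) ∧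
        ∀ e : Fin r → FamK K, (∀ j, e j ∈ H) → ∃ x ∈ KK,
          ∀ (F : Type) [Field F] [NumberField F] [Algebra K F] [IsGalois K F],
            (∀ s t : F ≃ₐ[K] F, s * t = t * s) →
            (∃ E, Rcp F (fun j => e j * x j) E) → ∀ i (d : ℕ) (ρ : (F ≃ₐ[K] F) →* Matrix (Fin d) (Fin d) ℚ),
              F2 σ (a i : K) (b i : K) (n i) (c i) (τ i) (fun x => x ≠ 0) F d ρ := by
  classical
  rcases Nat.eq_zero_or_pos m with hm | hm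
  · subst hm
    refine ⟨0, fun H _ => ⟨{1}, by simp, fun x hx j => ?_, fun e _ => ⟨1, Finset.mem_singleton_self 1,
      fun F _ _ _ _ _ _ i => i.elim0⟩⟩⟩
    rw [Finset.mem_singleton.1 hx]
    exact H.one_mem
  obtain ⟨lam, hlam, hmemL⟩ := exists_lam hl
  choose C w κ κW hN using fun i => (hf i).newf h
  have hMG := fun i => (hN i).mg
  obtain ⟨V, hV⟩ := tuplesK (nn := n) (cc := fun i x => c i (Ideal.span {x})) hMG hfv hl k lam hlam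
    hmemL r
  refine ⟨V, fun H hH => ?_⟩
  obtain ⟨KK, h4, h5, h6⟩ := hV H (okR hm hloc hl hlam hmemL hH)
  refine ⟨KK, h4, h5, fun e he => ?_⟩
  obtain ⟨x, hx, h7⟩ := h6 e he
  refine ⟨x, hx, fun F _ _ _ _ hab hE i d ρ => ?_⟩
  obtain ⟨E, hE⟩ := hE
  exact concl_D h (hf i) hl (hloc i) (hτ i) H
    (fun j => H.mul_mem (he j) (h5 x hx j)) hH.pow hH.fin hH.unit
    (fun y hy v hv => (hH.adm y hy v hv i).1) (fun J => h7 J i) hab hE d ρ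

open Classical in
/-- **Infinite groups.** -/
theorem infD (h : IQ K σ δ) {m : ℕ} (a b n : Fin m → 𝓞 K)
    (c : Fin m → Ideal (𝓞 K) → ℂ)
    (hf : ∀ i, BF σ δ (n i) (c i))
    (hloc : ∀ i, ∀ v : HeightOneSpectrum (𝓞 K),
      c i v.asIdeal = (aV (cv (a i : K) (b i : K)) v : ℂ) ∧
      (eV (cv (a i : K) (b i : K)) v : ℂ) =
        if n i ∈ v.asIdeal then 0 else (Ideal.absNorm v.asIdeal : ℂ))
    {τ : Fin m → ℝ} (hτ : ∀ i, FinD σ (a i : K) (b i : K) (n i) (c i) (τ i))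
    (hfv : ∀ i, fv (ordK h) (fun x => c i (Ideal.span {x})) 0 ≠ 0)
    {l : ℕ} (hl : l.Prime) (k : ℕ) (H : Subgroup (FamK K)) (hH : HR l k a b H)
    (hinf : (H : Set (FamK K)).Infinite) :
    ∃ H0 : Subgroup (FamK K), H0 ≤ H ∧ (H0 : Set (FamK K)).Infinite ∧
      ∀ (r : ℕ) (e : Fin r → FamK K), (∀ j, e j ∈ H0) →
        ∀ (F : Type) [Field F] [NumberField F] [Algebra K F] [IsGalois K F],
            (∀ s t : F ≃ₐ[K] F, s * t = t * s) →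
            (∃ E, Rcp F e E) → ∀ i (d : ℕ) (ρ : (F ≃ₐ[K] F) →* Matrix (Fin d) (Fin d) ℚ),
              F2 σ (a i : K) (b i : K) (n i) (c i) (τ i) (fun x => x ≠ 0) F d ρ := by
  classical
  rcases Nat.eq_zero_or_pos m with hm | hm
  · subst hm
    exact ⟨H, le_rfl, hinf, fun r e _ F _ _ _ _ _ _ i => i.elim0⟩
  obtain ⟨lam, hlam, hmemL⟩ := exists_lam hl
  choose C w κ κW hN using fun i => (hf i).newf h
  have hMG := fun i => (hN i).mg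
  obtain ⟨H0, h4, h5, h6⟩ := infiniteK (nn := n) (cc := fun i x => c i (Ideal.span {x})) hMG hfv hl k
    lam hlam hmemL H (okR hm hloc hl hlam hmemL hH) hinf
  refine ⟨H0, h4, h5, fun r e he F _ _ _ _ hab hE i d ρ => ?_⟩
  obtain ⟨E, hE⟩ := hE
  exact concl_D h (hf i) hl (hloc i) (hτ i) H
    (fun j => h4 (he j)) hH.pow hH.fin hH.unit
    (fun y hy v hv => (hH.adm y hy v hv i).1)
    (fun J => h6 _ (prod_pow_mem (G := FamK K) H0 e he J) i) hab hE d ρ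

end main

end Pool.Agent.L7h81.DN
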